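import Pool.Agent.H78.Dis.Defs

set_option autoImplicit false

open Finset Fintype

namespace Pool.Agent.H52.Dis

open H78D

theorem stAT_of (hDeg : StDeg) (hCnt : StCnt) (hSB : StSB) : StAT := by
  intro X _ _ K L lev a h ε hε
  classical
  have htot : 0 < tot a := by
    obtain ⟨x, _⟩ := h.notL
    exact lt_of_lt_of_le (h.apos x) (single_le_sum (fun _ _ => Nat.zero_le _) (mem_univ x))
  have hX : 0 < card X := by
    obtain ⟨x, _⟩ := h.notL
    exact card_pos_iff.2 ⟨x⟩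
  have hth : ∀ x, 0 < th a x := by
    intro x
    unfold th
    have h1 : 0 < (a x : ℝ) := by exact_mod_cast h.apos x
    have h2 : 0 < (tot a : ℝ) := by exact_mod_cast htot
    positivity
  have hXR : 0 < (card X : ℝ) := by exact_mod_cast hX
  obtain ⟨p, hp⟩ : ∃ p : ℝ, p = 1 / (4 * (3 * card X : ℝ)) * ∏ x, (th a x) ^ 9 := ⟨_, rfl⟩
  have hp0 : 0 < p := by
    rw [hp]
    have : 0 < ∏ x, (th a x) ^ 9 := prod_pos fun x _ => pow_pos (hth x) _
    positivity
  obtain ⟨W₀, hW₀⟩ := hSB X K L lev a h ε (p / 2) hε (by positivity)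
  refine ⟨W₀, fun W hW => ?_⟩
  obtain ⟨n₀, hn₀⟩ := hDeg X K L lev a h W
  refine ⟨max n₀ 1, fun V _ hV G hG v => ?_⟩
  have hn : 0 < (card V : ℝ) := by
    have : 0 < card V := by omega
    exact_mod_cast this
  obtain ⟨r₀, hr₀⟩ := hn₀ V (by omega) G hG v
  obtain ⟨Q, hQ⟩ : ∃ Q : ℝ, Q = ∏ r : X × Fin 3, ((W * a r.1 : ℕ) + 1 : ℝ) := ⟨_, rfl⟩
  have hQ0 : 0 < Q := by
    rw [hQ]
    exact prod_pos fun r _ => by positivity
  obtain ⟨P, hP⟩ : ∃ P : ℝ, P = ∏ r : X × Fin 3, (th a r.1 * card V) ^ (W * a r.1) := ⟨_, rfl⟩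
  have hP0 : 0 < P := by
    rw [hP]
    exact prod_pos fun r _ => pow_pos (mul_pos (hth _) hn) _
  by_cases hex : ∃ g₁ g₂ B, Valid K G g₁ g₂ B ∧
      p / 2 / Q * P ≤ (exts K a W G (Xset K G g₁ g₂ B r₀ v) : ℝ)
  · obtain ⟨g₁, g₂, B, hv, hle⟩ := hex
    rw [hQ, hP] at hle
    obtain ⟨S, hS, hadj⟩ := hW₀ W hW V G hG.1 v r₀ g₁ g₂ B hv hle
    exact ⟨S, r₀.1, hS, hadj⟩
  · exfalso
    push Not at hex
    have h1 := hCnt X K a W V G v r₀ (p / 2 / Q * P) (by positivity)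
      (fun g₁ g₂ B hv => (hex g₁ g₂ B hv).le)
    rw [← hQ] at h1
    have h2 := hr₀.trans h1
    have e1 : ∏ x : X, (th a x * card V) ^ (3 * (W * a x + 3)) =
        P * ((∏ x, (th a x) ^ 9) * (card V : ℝ) ^ (3 * card (X × Fin 3))) := by
      have e2 : P = ∏ x : X, (th a x * card V) ^ (3 * (W * a x)) := by
        rw [hP, Fintype.prod_prod_type]
        refine prod_congr rfl fun x _ => ?_
        simp only []
        rw [prod_const, card_univ, Fintype.card_fin, ← pow_mul, mul_comm (W * a x) 3]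
      have e3 : (card V : ℝ) ^ (3 * card (X × Fin 3)) = ∏ _x : X, (card V : ℝ) ^ 9 := by
        rw [prod_const, card_univ, ← pow_mul, Fintype.card_prod, Fintype.card_fin]
        congr 1
        ring
      rw [e2, e3, ← prod_mul_distrib, ← prod_mul_distrib]
      refine prod_congr rfl fun x _ => ?_
      ring
    have e4 : Q * (card V : ℝ) ^ (3 * card (X × Fin 3)) * (p / 2 / Q * P) =
        P * (card V : ℝ) ^ (3 * card (X × Fin 3)) * (p / 2) := by
      field_simp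
    rw [e1, e4] at h2
    have e5 : 1 / (4 * (3 * card X : ℝ)) * (P * ((∏ x, (th a x) ^ 9) *
        (card V : ℝ) ^ (3 * card (X × Fin 3)))) =
        P * (card V : ℝ) ^ (3 * card (X × Fin 3)) * p := by
      rw [hp]; ring
    rw [e5] at h2
    have h3 : 0 < P * (card V : ℝ) ^ (3 * card (X × Fin 3)) := by positivity
    nlinarith

end Pool.Agent.H52.Dis
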