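import Pool.Agent.H78.Dis.Graph

set_option autoImplicit false

open Finset Fintype

namespace Pool.Agent.H52.Dis

open H78D H78D.Inst

/-- the allowed colours -/
def Al (x T : Fin 30) : Prop :=
  T = kap x ∨ (21 ≤ x.val ∧ x.val ≤ 24 ∧ T.val = (kap x).val + 1)

instance (x T : Fin 30) : Decidable (Al x T) := by unfold Al; infer_instance

/-- next colour (mod 5) -/
def kp (x : Fin 30) : Fin 30 := if kap x = 4 then 0 else kap x + 1

lemma kap_mem : ∀ x, kap x ∈ L := by decide +kernel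
lemma kp_mem : ∀ x, kp x ∈ L := by decide +kernel

lemma al_kap (x : Fin 30) : Al x (kap x) := Or.inl rfl

lemma al_kp : ∀ x : Fin 30, 21 ≤ x.val → x.val ≤ 24 → Al x (kp x) := by decide +kernel

lemma al_L : ∀ x ∈ L, ∀ T, Al x T → T = x := by decide +kernel

lemma al_ok {x y T : Fin 30} (hx : Al x T) (hy : Al y T) :
    ¬ K.Adj x y ∧ (x ∈ L → y ∈ L → x = y) := by
  refine ⟨kap_ok x y ?_, fun h1 h2 => ?_⟩
  · rcases hx with hx | hx <;> rcases hy with hy | hy
    · exact Or.inl (hx.symm.trans hy)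
    · right; right; left
      refine ⟨hy.1, hy.2.1, ?_⟩
      rw [← hx]; exact hy.2.2
    · right; left
      refine ⟨hx.1, hx.2.1, ?_⟩
      rw [← hy]; exact hx.2.2.symm
    · right; right; right
      exact ⟨hx.1, hx.2.1, hy.1, hy.2.1, hx.2.2.symm.trans hy.2.2⟩
  · rw [← al_L x h1 T hx, ← al_L y h2 T hy]

lemma sumL (f : Fin 30 → ℕ) : ∑ T ∈ L, f T = f 0 + f 1 + f 2 + f 3 + f 4 := by
  have : L = {0, 1, 2, 3, 4} := rfl
  rw [this, sum_insert (by decide), sum_insert (by decide), sum_insert (by decide),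
    sum_insert (by decide), sum_singleton]
  ring

lemma th_eq (x : Fin 30) : th a x = (a x : ℝ) / 2310911482973462556 := by
  unfold th
  rw [tot_a]
  norm_num

lemma th_L : ∑ x ∈ L, th a x = 33628188 / 2310911482973462556 := by
  simp only [th_eq]
  rw [← sum_div]
  have : (∑ x ∈ L, (a x : ℝ)) = 33628188 := by
    have h : ∑ x ∈ L, a x = 33628188 := by decide +kernel
    exact_mod_cast h
  rw [this]

/-- the class sums -/
def MM (T : Fin 30) : ℕ := ∑ x ∈ univ.filter (fun x => kap x = T), a x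

lemma MM0 : MM 0 = 1689124738195459 := by decide +kernel
lemma MM1 : MM 1 = 1152922054371049481 := by decide +kernel
lemma MM2 : MM 2 = 1152922054387826695 := by decide +kernel
lemma MM3 : MM 3 = 1689124738191365 := by decide +kernel

lemma close {δ m : ℝ} {s : Fin 30 → ℕ} (hδ : 0 ≤ δ * m)
    (h : ∀ x, |(s x : ℝ) - th a x * m| ≤ δ * m) (A : Finset (Fin 30)) :
    |((∑ x ∈ A, s x : ℕ) : ℝ) - ((∑ x ∈ A, a x : ℕ) : ℝ) / 2310911482973462556 * m| ≤
      30 * (δ * m) := by
  have e : ((∑ x ∈ A, s x : ℕ) : ℝ) - ((∑ x ∈ A, a x : ℕ) : ℝ) / 2310911482973462556 * m =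
      ∑ x ∈ A, ((s x : ℝ) - th a x * m) := by
    rw [sum_sub_distrib]
    congr 1
    · push_cast; rfl
    · simp only [th_eq]
      rw [← sum_mul, ← sum_div]
      push_cast
      rfl
  rw [e]
  refine (abs_sum_le_sum_abs _ _).trans ((sum_le_sum fun x _ => h x).trans ?_)
  rw [sum_const, nsmul_eq_mul]
  refine mul_le_mul_of_nonneg_right ?_ hδ
  have : #A ≤ 30 := (card_le_univ A).trans (by simp)
  exact_mod_cast this

theorem flex : Flex K L a := by
  refine ⟨Al, fun x y T => al_ok, 1 / 10 ^ 11, by norm_num, ?_⟩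
  intro m s u hs hu h1 h2
  have hm : (0 : ℝ) ≤ m := Nat.cast_nonneg m
  have hδ : (0 : ℝ) ≤ 1 / 10 ^ 11 * m := by positivity
  obtain ⟨S, hS⟩ : ∃ S : Fin 30 → ℕ, ∀ T, S T = ∑ x ∈ univ.filter (fun x => kap x = T), s x :=
    ⟨_, fun _ => rfl⟩
  have hsum : S 0 + S 1 + S 2 + S 3 + S 4 = m := by
    rw [← sumL S, ← hs, ← sum_fiberwise_of_maps_to (s := univ) (t := L) (g := kap)
      (fun x _ => kap_mem x)]
    exact sum_congr rfl fun T _ => hS T
  rw [sumL] at hu
  have c0 := close hδ h1 (univ.filter (fun x => kap x = 0))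
  have c1 := close hδ h1 (univ.filter (fun x => kap x = 1))
  have c2 := close hδ h1 (univ.filter (fun x => kap x = 2))
  have c3 := close hδ h1 (univ.filter (fun x => kap x = 3))
  rw [← hS, show (∑ x ∈ univ.filter (fun x => kap x = 0), a x) = 1689124738195459 from MM0] at c0
  rw [← hS, show (∑ x ∈ univ.filter (fun x => kap x = 1), a x) = 1152922054371049481 from MM1] at c1
  rw [← hS, show (∑ x ∈ univ.filter (fun x => kap x = 2), a x) = 1152922054387826695 from MM2] at c2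
  rw [← hS, show (∑ x ∈ univ.filter (fun x => kap x = 3), a x) = 1689124738191365 from MM3] at c3
  have d0 := h2 0 (by decide)
  have d1 := h2 1 (by decide)
  have d2 := h2 2 (by decide)
  have d3 := h2 3 (by decide)
  rw [th_L, th_eq, show a 0 = 24579 from rfl] at d0
  rw [th_L, th_eq, show a 1 = 8388617 from rfl] at d1
  rw [th_L, th_eq, show a 2 = 25165831 from rfl] at d2
  rw [th_L, th_eq, show a 3 = 20485 from rfl] at d3
  have e0 := h1 21
  have e1 := h1 22
  have e2 := h1 23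
  have e3 := h1 24
  rw [th_eq, show a 21 = 137438953472 from rfl] at e0
  rw [th_eq, show a 22 = 1152921504606846976 from rfl] at e1
  rw [th_eq, show a 23 = 137438953472 from rfl] at e2
  rw [th_eq, show a 24 = 562949953421312 from rfl] at e3
  rw [abs_le] at c0 c1 c2 c3 d0 d1 d2 d3 e0 e1 e2 e3
  norm_num at c0 c1 c2 c3 d0 d1 d2 d3 e0 e1 e2 e3
  have f0 : u 0 ≤ S 0 := by
    have : (u 0 : ℝ) ≤ S 0 := by linarith [c0.1, d0.2]
    exact_mod_cast this
  have f0' : S 0 ≤ s 21 + u 0 := by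
    have : (S 0 : ℝ) ≤ s 21 + u 0 := by linarith [c0.2, d0.1, e0.1]
    exact_mod_cast this
  have f1 : u 0 + u 1 ≤ S 0 + S 1 := by
    have : (u 0 : ℝ) + u 1 ≤ S 0 + S 1 := by linarith [c0.1, d0.2, c1.1, d1.2]
    exact_mod_cast this
  have f1' : S 0 + S 1 ≤ s 22 + (u 0 + u 1) := by
    have : (S 0 : ℝ) + S 1 ≤ s 22 + (u 0 + u 1) := by linarith [c0.2, d0.1, c1.2, d1.1, e1.1]
    exact_mod_cast this
  have f2 : u 0 + u 1 + u 2 ≤ S 0 + S 1 + S 2 := by
    have : (u 0 : ℝ) + u 1 + u 2 ≤ S 0 + S 1 + S 2 := by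
      linarith [c0.1, d0.2, c1.1, d1.2, c2.1, d2.2]
    exact_mod_cast this
  have f2' : S 0 + S 1 + S 2 ≤ s 23 + (u 0 + u 1 + u 2) := by
    have : (S 0 : ℝ) + S 1 + S 2 ≤ s 23 + (u 0 + u 1 + u 2) := by
      linarith [c0.2, d0.1, c1.2, d1.1, c2.2, d2.1, e2.1]
    exact_mod_cast this
  have f3 : u 0 + u 1 + u 2 + u 3 ≤ S 0 + S 1 + S 2 + S 3 := by
    have : (u 0 : ℝ) + u 1 + u 2 + u 3 ≤ S 0 + S 1 + S 2 + S 3 := by
      linarith [c0.1, d0.2, c1.1, d1.2, c2.1, d2.2, c3.1, d3.2]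
    exact_mod_cast this
  have f3' : S 0 + S 1 + S 2 + S 3 ≤ s 24 + (u 0 + u 1 + u 2 + u 3) := by
    have : (S 0 : ℝ) + S 1 + S 2 + S 3 ≤ s 24 + (u 0 + u 1 + u 2 + u 3) := by
      linarith [c0.2, d0.1, c1.2, d1.1, c2.2, d2.1, c3.2, d3.1, e3.1]
    exact_mod_cast this
  clear c0 c1 c2 c3 d0 d1 d2 d3 e0 e1 e2 e3 h1 h2
  obtain ⟨R0, hR0⟩ : ∃ R, R + u 0 = S 0 := ⟨S 0 - u 0, by omega⟩
  obtain ⟨R1, hR1⟩ : ∃ R, R + (u 0 + u 1) = S 0 + S 1 := ⟨S 0 + S 1 - (u 0 + u 1), by omega⟩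
  obtain ⟨R2, hR2⟩ : ∃ R, R + (u 0 + u 1 + u 2) = S 0 + S 1 + S 2 :=
    ⟨S 0 + S 1 + S 2 - (u 0 + u 1 + u 2), by omega⟩
  obtain ⟨R3, hR3⟩ : ∃ R, R + (u 0 + u 1 + u 2 + u 3) = S 0 + S 1 + S 2 + S 3 :=
    ⟨S 0 + S 1 + S 2 + S 3 - (u 0 + u 1 + u 2 + u 3), by omega⟩
  obtain ⟨r, hr⟩ : ∃ r : Fin 30 → ℕ, ∀ x, r x = (if x = 21 then R0 else 0) +
    (if x = 22 then R1 else 0) + (if x = 23 then R2 else 0) + (if x = 24 then R3 else 0) :=
    ⟨_, fun _ => rfl⟩
  have hr0 : ∀ x : Fin 30, r x ≠ 0 → 21 ≤ x.val ∧ x.val ≤ 24 := by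
    intro x hx
    rw [hr] at hx
    by_cases x1 : x = 21
    · subst x1; decide
    by_cases x2 : x = 22
    · subst x2; decide
    by_cases x3 : x = 23
    · subst x3; decide
    by_cases x4 : x = 24
    · subst x4; decide
    simp [x1, x2, x3, x4] at hx
  have hrs : ∀ x, r x ≤ s x := by
    intro x
    by_cases x1 : x = 21
    · subst x1; have := hr 21; simp at this; omega
    by_cases x2 : x = 22
    · subst x2; have := hr 22; simp at this; omega
    by_cases x3 : x = 23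
    · subst x3; have := hr 23; simp at this; omega
    by_cases x4 : x = 24
    · subst x4; have := hr 24; simp at this; omega
    rw [hr]
    simp [x1, x2, x3, x4]
  have hfil : ∀ (g : Fin 30 → Fin 30) (T : Fin 30),
      ∑ x ∈ univ.filter (fun x => g x = T), r x = (if g 21 = T then R0 else 0) +
        (if g 22 = T then R1 else 0) + (if g 23 = T then R2 else 0) +
        (if g 24 = T then R3 else 0) := by
    intro g T
    simp only [hr, sum_add_distrib, Finset.sum_ite_eq', mem_filter, mem_univ, true_and]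
  refine ⟨fun x T => (if kap x = T then s x - r x else 0) + (if kp x = T then r x else 0),
    fun x => ?_, fun T hT => ?_, fun x T hT hz => ?_⟩
  · rw [sum_add_distrib, Finset.sum_ite_eq, Finset.sum_ite_eq, if_pos (kap_mem x),
      if_pos (kp_mem x)]
    exact Nat.sub_add_cancel (hrs x)
  · rw [sum_add_distrib, ← sum_filter, ← sum_filter, hfil]
    have k1 : ∑ x ∈ univ.filter (fun x => kap x = T), (s x - r x) +
        ∑ x ∈ univ.filter (fun x => kap x = T), r x = S T := by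
      rw [← sum_add_distrib, hS]
      exact sum_congr rfl fun x _ => Nat.sub_add_cancel (hrs x)
    rw [hfil] at k1
    have k21 : kap 21 = 0 := rfl
    have k22 : kap 22 = 1 := rfl
    have k23 : kap 23 = 2 := rfl
    have k24 : kap 24 = 3 := rfl
    have l21 : kp 21 = 1 := rfl
    have l22 : kp 22 = 2 := rfl
    have l23 : kp 23 = 3 := rfl
    have l24 : kp 24 = 4 := rfl
    rw [k21, k22, k23, k24] at k1
    rw [l21, l22, l23, l24]
    have hT' : T = 0 ∨ T = 1 ∨ T = 2 ∨ T = 3 ∨ T = 4 := by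
      have : L = {0, 1, 2, 3, 4} := rfl
      rw [this] at hT
      simpa using hT
    rcases hT' with rfl | rfl | rfl | rfl | rfl
    · simp at k1 ⊢; omega
    · simp at k1 ⊢; omega
    · simp at k1 ⊢; omega
    · simp at k1 ⊢; omega
    · simp at k1 ⊢; omega
  · by_cases h3 : kap x = T
    · rw [← h3]; exact al_kap x
    · by_cases h4 : kp x = T
      · simp only [h3, h4, if_true, if_false, zero_add] at hz
        have := hr0 x hz
        rw [← h4]
        exact al_kp x this.1 this.2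
      · simp [h3, h4] at hz

end Pool.Agent.H52.Dis
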