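import Pool.Agent.H52.Dis.ST

set_option autoImplicit false

open Finset Fintype

namespace Pool.Agent.H52.Dis

open H78D

/-- `G` has at most `k` classes of twins. -/
def Tw {V : Type} (G : SimpleGraph V) (k : ℕ) : Prop :=
  ∃ φ : V → Fin k, ∀ u v, φ u = φ v → ∀ w, G.Adj u w ↔ G.Adj v w

lemma tw_comap {n m : ℕ} (G₀ : SimpleGraph (Fin m)) (φ : Fin n → Fin m) :
    Tw (G₀.comap φ) m := by
  refine ⟨φ, fun u v huv w => ?_⟩
  simp only [SimpleGraph.comap_adj, huv]

/-- vertices in different classes are not twins. -/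
lemma twin_class {X : Type} [Fintype X] [DecidableEq X] {K : SimpleGraph X} {L : Finset X}
    {lev a : X → ℕ} (h : Good K L lev a) {V : Type} {G : SimpleGraph V} {τ : V → X}
    (hS : Str K L G τ) (hG : G.CliqueFree 4) (hne : ∀ x, ∃ v, τ v = x) {u v : V}
    (huv : ∀ w, G.Adj u w ↔ G.Adj v w) : τ u = τ v := by
  by_contra hc
  obtain ⟨b, c, d, hbc, hbd, hcd, hyb, hyc, hyd⟩ := h.uni (τ u) (τ v) hc
  obtain ⟨p, hp⟩ := hne b
  obtain ⟨q, hq⟩ := hne c
  obtain ⟨r, hr⟩ := hne d
  refine noK4 hG (a := u) (b := p) (c := q) (d := r) (hS.1 _ _ (by rw [hp]; exact hyb))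
    ((huv q).2 (hS.1 _ _ (by rw [hq]; exact hyc))) ?_ (hS.1 _ _ (by rw [hp, hq]; exact hbc))
    (hS.1 _ _ (by rw [hp, hr]; exact hbd)) (hS.1 _ _ (by rw [hq, hr]; exact hcd))
  rcases hyd with h1 | h1
  · exact hS.1 _ _ (by rw [hr]; exact h1)
  · exact (huv r).2 (hS.1 _ _ (by rw [hr]; exact h1))

theorem stMain_of (hAT : StAT) (hEX : StEX) (hTR : StTR) : StMain := by
  intro X _ _ K L lev a h hflex
  classical
  obtain ⟨δ, hδ, hTR'⟩ := hTR X K L lev a h hflex
  have htot : 0 < tot a := by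
    obtain ⟨x, _⟩ := h.notL
    exact lt_of_lt_of_le (h.apos x) (single_le_sum (fun _ _ => Nat.zero_le _) (mem_univ x))
  have htR : 1 ≤ (tot a : ℝ) := by exact_mod_cast htot
  obtain ⟨t, ht⟩ : ∃ t : ℝ, t = 1 / (tot a : ℝ) := ⟨_, rfl⟩
  have ht0 : 0 < t := by rw [ht]; positivity
  have hth : ∀ x, t ≤ th a x := by
    intro x
    unfold th
    rw [ht]
    apply div_le_div_of_nonneg_right _ (by linarith)
    exact_mod_cast h.apos x
  obtain ⟨ε, hε, hST⟩ := stST X K L lev a h (min δ (t / 2)) (lt_min hδ (by positivity))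
  obtain ⟨W, hW⟩ := hAT X K L lev a h ε hε
  obtain ⟨n₀, hn₀⟩ := hW W le_rfl
  refine ⟨W, ?_⟩
  -- the size at which all classes are large
  obtain ⟨M, hM⟩ : ∃ M : ℕ, (card (HV a W) : ℝ) + 1 ≤ t / 2 * M := by
    obtain ⟨M, hM⟩ := exists_nat_ge (((card (HV a W) : ℝ) + 1) / (t / 2))
    refine ⟨M, ?_⟩
    rw [div_le_iff₀ (by positivity)] at hM
    linarith
  -- structure of the extremal graphs
  have key : ∀ (V : Type) [Fintype V], max n₀ M ≤ card V → ∀ G : SimpleGraph V,
      Ext (HG K a W) G → ∃ τ : V → X, Str K L G τ ∧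
        (∀ x, |(#(univ.filter (fun v => τ v = x)) : ℝ) - th a x * card V| ≤ δ * card V) ∧
        (∀ x, (card (HV a W) : ℝ) + 1 ≤ (#(univ.filter (fun v => τ v = x)) : ℝ)) ∧
        (∀ x, t / 2 * card V ≤ (#(univ.filter (fun v => τ v = x)) : ℝ)) := by
    intro V _ hV G hG
    have hMV : M ≤ card V := (le_max_right _ _).trans hV
    have hMR : (M : ℝ) ≤ card V := by exact_mod_cast hMV
    have hVpos : 0 < (card V : ℝ) := by
      have : 0 < t / 2 * M := lt_of_lt_of_le (by positivity) hM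
      nlinarith
    have : Nonempty V := Fintype.card_pos_iff.1 (by exact_mod_cast hVpos)
    obtain ⟨τ, hτ1, hτ2⟩ := hST V G hG.1 (hn₀ V ((le_max_left _ _).trans hV) G hG)
    have hlow : ∀ x, t / 2 * card V ≤ (#(univ.filter (fun v => τ v = x)) : ℝ) := by
      intro x
      have h1 := (abs_le.1 (hτ2 x)).1
      have h2 : min δ (t / 2) * card V ≤ t / 2 * card V :=
        mul_le_mul_of_nonneg_right (min_le_right _ _) hVpos.le
      have h3 : t * card V ≤ th a x * card V := mul_le_mul_of_nonneg_right (hth x) hVpos.le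
      linarith
    have hbig : ∀ x, (card (HV a W) : ℝ) + 1 ≤ (#(univ.filter (fun v => τ v = x)) : ℝ) := by
      intro x
      have : t / 2 * M ≤ t / 2 * card V := mul_le_mul_of_nonneg_left hMR (by positivity)
      linarith [hlow x]
    refine ⟨τ, ⟨hEX X K L lev a h W V G τ hG hτ1 (fun x => ?_), hτ1⟩, fun x => ?_, hbig, hlow⟩
    · have := hbig x
      have h2 : (card (HV a W) : ℝ) ≤ (#(univ.filter (fun v => τ v = x)) : ℝ) := by linarith
      exact_mod_cast h2
    · exact (hτ2 x).trans (mul_le_mul_of_nonneg_right (min_le_left _ _) hVpos.le)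
  obtain ⟨n₁, hn₁⟩ := hTR' W (max n₀ M) (fun V _ hV G hG => by
    obtain ⟨τ, h1, h2, -⟩ := key V hV G hG
    exact ⟨τ, h1, h2⟩)
  have main : ∀ k : ℕ, ∃ N : ℕ, ∀ (V : Type) [Fintype V], N ≤ card V → ∀ G : SimpleGraph V,
      Ext (HG K a W) G → ¬ Tw G k := by
    intro k
    induction k with
    | zero =>
      refine ⟨1, fun V _ hV G _ => ?_⟩
      rintro ⟨φ, -⟩
      obtain ⟨v⟩ := Fintype.card_pos_iff.1 (by omega : 0 < card V)
      exact (φ v).elim0
    | succ k ih =>
      obtain ⟨N, hN⟩ := ih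
      obtain ⟨N', hN'⟩ : ∃ N' : ℕ, (N : ℝ) ≤ t / 2 * N' := by
        obtain ⟨N', hN'⟩ := exists_nat_ge ((N : ℝ) / (t / 2))
        refine ⟨N', ?_⟩
        rw [div_le_iff₀ (by positivity)] at hN'
        linarith
      refine ⟨max (max n₀ M) (max n₁ N'), fun V _ hV G hG => ?_⟩
      rintro ⟨φ, hφ⟩
      obtain ⟨τ, h1, h2, h3, h4⟩ := key V ((le_max_left _ _).trans hV) G hG
      have hV1 : n₁ ≤ card V := ((le_max_left _ _).trans (le_max_right _ _)).trans hV
      have hV2 : N' ≤ card V := ((le_max_right _ _).trans (le_max_right _ _)).trans hV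
      have hE := hn₁ V hV1 G τ hG h1 h2
      have hsurj : ∀ x, ∃ v, τ v = x := by
        intro x
        have : 0 < (#(univ.filter (fun v => τ v = x)) : ℝ) :=
          lt_of_lt_of_le (by positivity) (h3 x)
        have h5 : 0 < #(univ.filter (fun v => τ v = x)) := by exact_mod_cast this
        obtain ⟨v, hv⟩ := Finset.card_pos.1 h5
        exact ⟨v, (mem_filter.1 hv).2⟩
      have hcard : N ≤ Fintype.card {v | τ v ∈ L} := by
        obtain ⟨T, hT⟩ := h.Lne
        have h5 : (#(univ.filter (fun v => τ v = T)) : ℝ) ≤ Fintype.card {v | τ v ∈ L} := by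
          have : #(univ.filter (fun v => τ v = T)) ≤ Fintype.card {v | τ v ∈ L} := by
            rw [← Set.toFinset_card]
            refine card_le_card fun v hv => ?_
            rw [Set.mem_toFinset]
            show τ v ∈ L
            rw [(mem_filter.1 hv).2]
            exact hT
          exact_mod_cast this
        have h6 : (N' : ℝ) ≤ card V := by exact_mod_cast hV2
        have h7 : t / 2 * N' ≤ t / 2 * card V := mul_le_mul_of_nonneg_left h6 (by positivity)
        have h8 := h4 T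
        have h9 : (N : ℝ) ≤ Fintype.card {v | τ v ∈ L} := by linarith
        exact_mod_cast h9
      refine hN _ hcard _ hE ?_
      obtain ⟨x₀, hx₀⟩ := h.notL
      obtain ⟨v₀, hv₀⟩ := hsurj x₀
      have hne : ∀ u : {v | τ v ∈ L}, φ u ≠ φ v₀ := by
        intro u hu
        have := twin_class h h1 hG.1 hsurj (hφ _ _ hu)
        have h5 : τ (u : V) ∈ L := u.2
        rw [this, hv₀] at h5
        exact hx₀ h5
      choose ψ hψ using fun u : {v | τ v ∈ L} => Fin.exists_succAbove_eq (hne u)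
      refine ⟨ψ, fun u v huv w => ?_⟩
      have := hφ (u : V) v (by rw [← hψ u, ← hψ v, huv]) w
      simpa using this
  intro m
  obtain ⟨N, hN⟩ := main m
  refine ⟨N, fun n hn G₀ φ hE => hN (Fin n) (by simpa using hn) _ hE (tw_comap G₀ φ)⟩

end Pool.Agent.H52.Dis
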