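import Pool.Agent.H78.Dis.Defs

set_option autoImplicit false

open Finset Fintype

namespace Pool.Agent.H52.Dis

open H78D

section count
variable {V : Type} (G : SimpleGraph V)

open Classical in
/-- number of non-adjacent pairs. -/
noncomputable def nE (A B : Finset V) : ℝ :=
  (#((A ×ˢ B).filter (fun p => ¬ G.Adj p.1 p.2)) : ℝ)

open Classical in
/-- indicator of non-adjacency. -/
noncomputable def fE (a b : V) : ℝ := if G.Adj a b then 0 else 1

lemma nE_eq (A B : Finset V) : nE G A B = ∑ a ∈ A, ∑ b ∈ B, fE G a b := by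
  classical
  unfold nE fE
  rw [Finset.card_filter, Finset.sum_product]
  push_cast
  refine sum_congr rfl fun a _ => sum_congr rfl fun b _ => ?_
  by_cases h : G.Adj a b <;> simp [h]

lemma nE_mono {A B A' B' : Finset V} (h : A ⊆ A') (h' : B ⊆ B') : nE G A B ≤ nE G A' B' := by
  classical
  unfold nE
  exact_mod_cast card_le_card (filter_subset_filter _ (product_subset_product h h'))

lemma fE_nonneg (a b : V) : 0 ≤ fE G a b := by
  unfold fE; split_ifs <;> norm_num

lemma fE_lt {a b : V} (h : fE G a b < 1) : G.Adj a b := by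
  by_contra hc
  unfold fE at h
  rw [if_neg hc] at h
  exact lt_irrefl _ h

lemma quad {A B C D : Finset V} {e m : ℝ} (hm : 0 < m) (he : 6 * e < m ^ 2)
    (hA : m ≤ #A) (hB : m ≤ #B) (hC : m ≤ #C) (hD : m ≤ #D)
    (h12 : nE G A B ≤ e) (h13 : nE G A C ≤ e) (h14 : nE G A D ≤ e) (h23 : nE G B C ≤ e)
    (h24 : nE G B D ≤ e) (h34 : nE G C D ≤ e) :
    ∃ a ∈ A, ∃ b ∈ B, ∃ c ∈ C, ∃ d ∈ D, G.Adj a b ∧ G.Adj a c ∧ G.Adj a d ∧ G.Adj b c ∧
      G.Adj b d ∧ G.Adj c d := by
  classical
  by_contra hcon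
  have key : ∀ a ∈ A, ∀ b ∈ B, ∀ c ∈ C, ∀ d ∈ D, (1 : ℝ) ≤ fE G a b + fE G a c + fE G a d +
      fE G b c + fE G b d + fE G c d := by
    intro a ha b hb c hc d hd
    by_contra hlt
    push Not at hlt
    have := fE_nonneg G a b
    have := fE_nonneg G a c
    have := fE_nonneg G a d
    have := fE_nonneg G b c
    have := fE_nonneg G b d
    have := fE_nonneg G c d
    exact hcon ⟨a, ha, b, hb, c, hc, d, hd, fE_lt G (by linarith), fE_lt G (by linarith),
      fE_lt G (by linarith), fE_lt G (by linarith), fE_lt G (by linarith), fE_lt G (by linarith)⟩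
  have hs : ∑ a ∈ A, ∑ b ∈ B, ∑ c ∈ C, ∑ d ∈ D, (1 : ℝ) ≤
      ∑ a ∈ A, ∑ b ∈ B, ∑ c ∈ C, ∑ d ∈ D, (fE G a b + fE G a c + fE G a d +
      fE G b c + fE G b d + fE G c d) :=
    sum_le_sum fun a ha => sum_le_sum fun b hb => sum_le_sum fun c hc => sum_le_sum fun d hd =>
      key a ha b hb c hc d hd
  simp only [sum_add_distrib, sum_const, nsmul_eq_mul, ← mul_sum, mul_one] at hs
  simp only [nE_eq] at h12 h13 h14 h23 h24 h34
  set p : ℝ := (#A : ℝ)
  set q : ℝ := (#B : ℝ)
  set r : ℝ := (#C : ℝ)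
  set s : ℝ := (#D : ℝ)
  have hp : 0 < p := hm.trans_le hA
  have hq : 0 < q := hm.trans_le hB
  have hr : 0 < r := hm.trans_le hC
  have hs' : 0 < s := hm.trans_le hD
  have e1 := mul_le_mul_of_nonneg_left h12 (mul_pos hr hs').le
  have e2 := mul_le_mul_of_nonneg_left h13 (mul_pos hq hs').le
  have e3 := mul_le_mul_of_nonneg_left h14 (mul_pos hq hr).le
  have e4 := mul_le_mul_of_nonneg_left h23 (mul_pos hp hs').le
  have e5 := mul_le_mul_of_nonneg_left h24 (mul_pos hp hr).le
  have e6 := mul_le_mul_of_nonneg_left h34 (mul_pos hp hq).le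
  have hS : p * (q * (r * s)) ≤ (r * s + q * s + q * r + p * s + p * r + p * q) * e := by
    nlinarith
  have m2 : ∀ x y : ℝ, m ≤ x → m ≤ y → m ^ 2 ≤ x * y := by
    intro x y hx hy
    nlinarith
  have f1 := mul_le_mul_of_nonneg_right (m2 p q hA hB) (mul_pos hr hs').le
  have f2 := mul_le_mul_of_nonneg_right (m2 p r hA hC) (mul_pos hq hs').le
  have f3 := mul_le_mul_of_nonneg_right (m2 p s hA hD) (mul_pos hq hr).le
  have f4 := mul_le_mul_of_nonneg_right (m2 q r hB hC) (mul_pos hp hs').le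
  have f5 := mul_le_mul_of_nonneg_right (m2 q s hB hD) (mul_pos hp hr).le
  have f6 := mul_le_mul_of_nonneg_right (m2 r s hC hD) (mul_pos hp hq).le
  have hT : (r * s + q * s + q * r + p * s + p * r + p * q) * m ^ 2 ≤
      6 * (p * (q * (r * s))) := by nlinarith
  have hpos : 0 < r * s + q * s + q * r + p * s + p * r + p * q := by positivity
  have : (r * s + q * s + q * r + p * s + p * r + p * q) * (m ^ 2 - 6 * e) ≤ 0 := by linarith
  have h3 : 0 < (r * s + q * s + q * r + p * s + p * r + p * q) * (m ^ 2 - 6 * e) :=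
    mul_pos hpos (by linarith)
  linarith

lemma trip {B C D : Finset V} {e m : ℝ} (hm : 0 < m) (he : 6 * e < m ^ 2)
    (hB : m ≤ #B) (hC : m ≤ #C) (hD : m ≤ #D)
    (h23 : nE G B C ≤ e) (h24 : nE G B D ≤ e) (h34 : nE G C D ≤ e) :
    ∃ b ∈ B, ∃ c ∈ C, ∃ d ∈ D, G.Adj b c ∧ G.Adj b d ∧ G.Adj c d := by
  classical
  by_contra hcon
  have key : ∀ b ∈ B, ∀ c ∈ C, ∀ d ∈ D, (1 : ℝ) ≤ fE G b c + fE G b d + fE G c d := by
    intro b hb c hc d hd
    by_contra hlt
    push Not at hlt
    have := fE_nonneg G b c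
    have := fE_nonneg G b d
    have := fE_nonneg G c d
    exact hcon ⟨b, hb, c, hc, d, hd, fE_lt G (by linarith), fE_lt G (by linarith),
      fE_lt G (by linarith)⟩
  have hs : ∑ b ∈ B, ∑ c ∈ C, ∑ d ∈ D, (1 : ℝ) ≤
      ∑ b ∈ B, ∑ c ∈ C, ∑ d ∈ D, (fE G b c + fE G b d + fE G c d) :=
    sum_le_sum fun b hb => sum_le_sum fun c hc => sum_le_sum fun d hd => key b hb c hc d hd
  simp only [sum_add_distrib, sum_const, nsmul_eq_mul, ← mul_sum, mul_one] at hs
  simp only [nE_eq] at h23 h24 h34
  set q : ℝ := (#B : ℝ)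
  set r : ℝ := (#C : ℝ)
  set s : ℝ := (#D : ℝ)
  have hq : 0 < q := hm.trans_le hB
  have hr : 0 < r := hm.trans_le hC
  have hs' : 0 < s := hm.trans_le hD
  have e4 := mul_le_mul_of_nonneg_left h23 hs'.le
  have e5 := mul_le_mul_of_nonneg_left h24 hr.le
  have e6 := mul_le_mul_of_nonneg_left h34 hq.le
  have hS : q * (r * s) ≤ (s + r + q) * e := by nlinarith
  have m2 : ∀ x y : ℝ, m ≤ x → m ≤ y → m ^ 2 ≤ x * y := by
    intro x y hx hy
    nlinarith
  have f4 := mul_le_mul_of_nonneg_right (m2 q r hB hC) hs'.le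
  have f5 := mul_le_mul_of_nonneg_right (m2 q s hB hD) hr.le
  have f6 := mul_le_mul_of_nonneg_right (m2 r s hC hD) hq.le
  have hT : (s + r + q) * m ^ 2 ≤ 3 * (q * (r * s)) := by nlinarith
  have hpos : 0 < s + r + q := by positivity
  have h3 : 0 < (s + r + q) * (m ^ 2 - 6 * e) := mul_pos hpos (by linarith)
  have h4 : 0 < q * (r * s) := by positivity
  nlinarith

lemma pair {C D : Finset V} {e m : ℝ} (hm : 0 < m) (he : 6 * e < m ^ 2)
    (hC : m ≤ #C) (hD : m ≤ #D) (h34 : nE G C D ≤ e) :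
    ∃ c ∈ C, ∃ d ∈ D, G.Adj c d := by
  classical
  by_contra hcon
  have : ∑ c ∈ C, ∑ d ∈ D, (1 : ℝ) ≤ ∑ c ∈ C, ∑ d ∈ D, fE G c d := by
    refine sum_le_sum fun c hc => sum_le_sum fun d hd => ?_
    by_contra hlt
    push Not at hlt
    exact hcon ⟨c, hc, d, hd, fE_lt G hlt⟩
  rw [← nE_eq] at this
  simp only [sum_const, nsmul_eq_mul, mul_one] at this
  nlinarith

variable {G}

lemma noK4 (h : G.CliqueFree 4) {a b c d : V} (hab : G.Adj a b) (hac : G.Adj a c)
    (had : G.Adj a d) (hbc : G.Adj b c) (hbd : G.Adj b d) (hcd : G.Adj c d) : False := by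
  classical
  refine h {a, b, c, d} ⟨?_, ?_⟩
  · intro x hx y hy hxy
    simp only [coe_insert, coe_singleton, Set.mem_insert_iff, Set.mem_singleton_iff] at hx hy
    rcases hx with rfl | rfl | rfl | rfl <;> rcases hy with rfl | rfl | rfl | rfl <;>
      first
        | exact absurd rfl hxy
        | assumption
        | (apply SimpleGraph.Adj.symm; assumption)
  · rw [card_insert_of_notMem, card_insert_of_notMem, card_insert_of_notMem, card_singleton]
    · simp [hcd.ne]
    · simp [hbc.ne, hbd.ne]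
    · simp [hab.ne, hac.ne, had.ne]

end count

section cc
variable {X : Type} [Fintype X] [DecidableEq X] {K : SimpleGraph X} {L : Finset X}
  {lev a : X → ℕ}

/-- no choice function with an edge going into `L`. -/
lemma allL (h : Good K L lev a) (f : X → X)
    (hA : ∀ x x', K.Adj x x' → K.Adj (f x) (f x') ∨ (f x ≠ f x' ∧ f x ∈ L ∧ f x' ∈ L))
    {x x' : X} (hx : K.Adj x x') (h1 : f x ∈ L) (h2 : f x' ∈ L) : ∀ y, f y ∈ L := by
  intro y
  have := h.tc (fun r => f r.1 ∈ L) ?_ (x, 0) (x', 1) ⟨hx, by simp⟩ h1 h2 (y, 0)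
  · exact this
  · intro r s q hrs hrq hsq hr hs
    by_contra hq
    have d1 : f r.1 ≠ f s.1 := by
      rcases hA r.1 s.1 hrs.1 with h3 | h3
      · exact absurd h3 (h.farNonadj _ hr _ hs)
      · exact h3.1
    have d2 : K.Adj (f q.1) (f r.1) := by
      rcases hA r.1 q.1 hrq.1 with h3 | h3
      · exact h3.symm
      · exact absurd h3.2.2 hq
    have d3 : K.Adj (f q.1) (f s.1) := by
      rcases hA s.1 q.1 hsq.1 with h3 | h3
      · exact h3.symm
      · exact absurd h3.2.2 hq
    exact h.far _ hr _ hs d1 _ d2 d3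

lemma ccA (h : Good K L lev a) (P : X → X → Prop) (row : ∀ x, ∃ y, P x y)
    (col : ∀ y, ∃ x, P x y)
    (hA : ∀ x y x' y', P x y → P x' y' → K.Adj x x' → K.Adj y y' ∨ (y ≠ y' ∧ y ∈ L ∧ y' ∈ L)) :
    ∀ x y x' y', P x y → P x' y' → K.Adj x x' → K.Adj y y' := by
  intro x y x' y' h1 h2 hx
  rcases hA x y x' y' h1 h2 hx with h3 | h3
  · exact h3
  exfalso
  choose f hf using row
  -- a choice function
  let g : X → X := Function.update (Function.update f x y) x' y'
  have hg : ∀ z, P z (g z) := by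
    intro z
    by_cases e1 : z = x'
    · subst e1; simp only [g, Function.update_self]; exact h2
    · by_cases e2 : z = x
      · subst e2; simp only [g, Function.update_of_ne e1, Function.update_self]; exact h1
      · simp only [g, Function.update_of_ne e1, Function.update_of_ne e2]; exact hf z
  have gx : g x = y := by
    simp only [g, Function.update_of_ne hx.ne, Function.update_self]
  have gx' : g x' = y' := by simp only [g, Function.update_self]
  have all1 : ∀ z, g z ∈ L := allL h g (fun u v huv => hA _ _ _ _ (hg u) (hg v) huv) hx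
    (by rw [gx]; exact h3.2.1) (by rw [gx']; exact h3.2.2)
  obtain ⟨y0, hy0⟩ := h.notL
  obtain ⟨x0, hx0⟩ := col y0
  obtain ⟨z, w, hzw, hz, -, hw, -⟩ := h.avoid x0 x0
  let k : X → X := Function.update g x0 y0
  have hk : ∀ z, P z (k z) := by
    intro z
    by_cases e1 : z = x0
    · subst e1; simp only [k, Function.update_self]; exact hx0
    · simp only [k, Function.update_of_ne e1]; exact hg z
  have := allL h k (fun u v huv => hA _ _ _ _ (hk u) (hk v) huv) hzw
    (by simp only [k, Function.update_of_ne hz]; exact all1 z)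
    (by simp only [k, Function.update_of_ne hw]; exact all1 w) x0
  simp only [k, Function.update_self] at this
  exact hy0 this

lemma ccU (h : Good K L lev a) (P : X → X → Prop) (col : ∀ y, ∃ x, P x y)
    (hB : ∀ x y x' y', P x y → P x' y' → K.Adj y y' → K.Adj x x') {x y y2 : X}
    (h1 : P x y) (h2 : P x y2) : y = y2 := by
  by_contra hne
  obtain ⟨b, c, d, hbc, hbd, hcd, hyb, hyc, hyd⟩ := h.uni y y2 hne
  obtain ⟨b', hb'⟩ := col b
  obtain ⟨c', hc'⟩ := col c
  obtain ⟨d', hd'⟩ := col d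
  have k1 : K.Adj x b' := hB _ _ _ _ h1 hb' hyb
  have k2 : K.Adj x c' := hB _ _ _ _ h2 hc' hyc
  have k3 : K.Adj x d' := by
    rcases hyd with h3 | h3
    · exact hB _ _ _ _ h1 hd' h3
    · exact hB _ _ _ _ h2 hd' h3
  exact h.k4 x b' c' d' k1 k2 k3 (hB _ _ _ _ hb' hc' hbc) (hB _ _ _ _ hb' hd' hbd)
    (hB _ _ _ _ hc' hd' hcd)

end cc

section fam
variable {X : Type} [Fintype X] [DecidableEq X] {K : SimpleGraph X} {L : Finset X}
  {lev a : X → ℕ} {V : Type} [Fintype V] {G : SimpleGraph V} {θ : X → ℝ} {ε γ : ℝ}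

open Classical in
lemma cover {S : X → Finset V} (hF : Fam K θ ε G S) (hsum : ∑ x, θ x = 1) (T : Finset V) :
    (#T : ℝ) ≤ ∑ x, (#(T ∩ S x) : ℝ) + card X * ε * card V := by
  obtain ⟨hd, hs, -⟩ := hF
  have hU : (#(univ.biUnion S) : ℝ) = ∑ x, (#(S x) : ℝ) := by
    rw [card_biUnion (fun x _ y _ hxy => hd x y hxy)]
    push_cast
    rfl
  have h1 : (#T : ℝ) ≤ (#(T ∩ univ.biUnion S) : ℝ) + (#(univ \ univ.biUnion S) : ℝ) := by
    have : #T ≤ #(T ∩ univ.biUnion S) + #(univ \ univ.biUnion S) := by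
      refine le_trans (card_le_card (t := (T ∩ univ.biUnion S) ∪ (univ \ univ.biUnion S)) ?_)
        (card_union_le _ _)
      intro u hu
      by_cases h : u ∈ univ.biUnion S
      · exact mem_union_left _ (mem_inter.2 ⟨hu, h⟩)
      · exact mem_union_right _ (mem_sdiff.2 ⟨mem_univ _, h⟩)
    exact_mod_cast this
  have h2 : (#(T ∩ univ.biUnion S) : ℝ) ≤ ∑ x, (#(T ∩ S x) : ℝ) := by
    rw [inter_biUnion]
    exact_mod_cast card_biUnion_le
  have h3 : (#(univ \ univ.biUnion S) : ℝ) = card V - ∑ x, (#(S x) : ℝ) := by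
    rw [← hU, card_sdiff_of_subset (subset_univ _), Nat.cast_sub (card_le_card (subset_univ _))]
    rfl
  have h4 : ∑ x, (θ x - ε) * card V ≤ ∑ x, (#(S x) : ℝ) := sum_le_sum fun x _ => hs x
  have h5 : ∑ x, (θ x - ε) * (card V : ℝ) = (1 - card X * ε) * card V := by
    rw [← sum_mul, sum_sub_distrib, hsum, sum_const, nsmul_eq_mul]
    rfl
  rw [h5] at h4
  nlinarith

open Classical in
/-- large overlap. -/
def PP (γ : ℝ) (S S' : X → Finset V) (x y : X) : Prop := γ * card V ≤ (#(S x ∩ S' y) : ℝ)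

lemma PP_symm {S S' : X → Finset V} {x y : X} (h : PP γ S S' x y) : PP γ S' S y x := by
  classical
  unfold PP at *
  rw [inter_comm]
  exact h

lemma PP_row {S S' : X → Finset V} (hF : Fam K θ ε G S) (hF' : Fam K θ ε G S')
    (hsum : ∑ x, θ x = 1) (hn : 0 < (card V : ℝ)) (x : X)
    (hx : card X * γ + card X * ε < θ x - ε) : ∃ y, PP γ S S' x y := by
  classical
  by_contra hcon
  push Not at hcon
  have h1 := cover hF' hsum (S x)
  have h2 : ∑ y, (#(S x ∩ S' y) : ℝ) ≤ ∑ y : X, γ * (card V : ℝ) :=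
    sum_le_sum fun y _ => le_of_lt (not_le.1 (hcon y))
  rw [sum_const, nsmul_eq_mul, card_univ] at h2
  have h3 := hF.2.1 x
  have h4 := mul_lt_mul_of_pos_right hx hn
  nlinarith

/-- adjacency of the classes with large overlap. -/
lemma PP_A (h : Good K L lev a) {S S' : X → Finset V} (hF : Fam K θ ε G S)
    (hF' : Fam K θ ε G S') (hG : G.CliqueFree 4) (hn : 0 < (card V : ℝ)) (hγ : 0 < γ)
    (hε : 6 * ε < γ ^ 2) (hθ : ∀ x, γ ≤ θ x - ε) :
    ∀ x y x' y', PP γ S S' x y → PP γ S S' x' y' → K.Adj x x' →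
      K.Adj y y' ∨ (y ≠ y' ∧ y ∈ L ∧ y' ∈ L) := by
  classical
  intro x y x' y' h1 h2 hx
  by_contra hcon
  push Not at hcon
  obtain ⟨b, c, hbc, hby, hby', hcy, hcy'⟩ := h.mid y y' hcon.1 (fun k1 k2 => by
    by_contra hne
    exact hcon.2 hne k1 k2)
  have hm : 0 < γ * card V := mul_pos hγ hn
  have he : 6 * (ε * (card V : ℝ) ^ 2) < (γ * card V) ^ 2 := by
    have : 0 < (card V : ℝ) ^ 2 := by positivity
    nlinarith
  have hb : γ * card V ≤ (#(S' b) : ℝ) :=
    (mul_le_mul_of_nonneg_right (hθ b) hn.le).trans (hF'.2.1 b)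
  have hc : γ * card V ≤ (#(S' c) : ℝ) :=
    (mul_le_mul_of_nonneg_right (hθ c) hn.le).trans (hF'.2.1 c)
  have key := fun {u v : X} (huv : K.Adj u v) => hF'.2.2 u v huv
  obtain ⟨p, -, q, -, r, -, s, -, k1, k2, k3, k4, k5, k6⟩ := quad G hm he h1 h2 hb hc
    ((nE_mono G inter_subset_left inter_subset_left).trans (hF.2.2 x x' hx))
    ((nE_mono G inter_subset_right (Subset.refl _)).trans (hF'.2.2 y b hby.symm))
    ((nE_mono G inter_subset_right (Subset.refl _)).trans (hF'.2.2 y c hcy.symm))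
    ((nE_mono G inter_subset_right (Subset.refl _)).trans (hF'.2.2 y' b hby'.symm))
    ((nE_mono G inter_subset_right (Subset.refl _)).trans (hF'.2.2 y' c hcy'.symm))
    (hF'.2.2 b c hbc)
  exact noK4 hG k1 k2 k3 k4 k5 k6

open Classical in
/-- non-neighbours of `v` in `T`. -/
noncomputable def nn (G : SimpleGraph V) (v : V) (T : Finset V) : ℝ :=
  (#(T.filter (fun u => ¬ G.Adj v u)) : ℝ)

lemma nn_nb (G : SimpleGraph V) (v : V) (T : Finset V) : open Classical in
    (#(T.filter (fun u => G.Adj v u)) : ℝ) = #T - nn G v T := by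
  classical
  have := card_filter_add_card_filter_not (s := T) (fun u => G.Adj v u)
  unfold nn
  rw [eq_sub_iff_add_eq]
  exact_mod_cast this

lemma nn_nb2 (G : SimpleGraph V) (u v : V) (T : Finset V) : open Classical in
    (#T : ℝ) - nn G u T - nn G v T ≤ (#(T.filter (fun w => G.Adj u w ∧ G.Adj v w)) : ℝ) := by
  classical
  have : T ⊆ T.filter (fun w => G.Adj u w ∧ G.Adj v w) ∪ (T.filter (fun w => ¬ G.Adj u w) ∪
      T.filter (fun w => ¬ G.Adj v w)) := by
    intro w hw
    simp only [mem_union, mem_filter]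
    tauto
  have h1 := (card_le_card this).trans (card_union_le _ _)
  have h2 := card_union_le (T.filter (fun w => ¬ G.Adj u w)) (T.filter (fun w => ¬ G.Adj v w))
  have h3 : #T ≤ #(T.filter (fun w => G.Adj u w ∧ G.Adj v w)) +
    (#(T.filter (fun w => ¬ G.Adj u w)) + #(T.filter (fun w => ¬ G.Adj v w))) :=
    h1.trans (Nat.add_le_add_left h2 _)
  have h4 : (#T : ℝ) ≤ (#(T.filter (fun w => G.Adj u w ∧ G.Adj v w)) : ℝ) +
    ((#(T.filter (fun w => ¬ G.Adj u w)) : ℝ) + (#(T.filter (fun w => ¬ G.Adj v w)) : ℝ)) := by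
    exact_mod_cast h3
  unfold nn
  linarith

/-- atypical vertices. -/
lemma atyp (G : SimpleGraph V) (A B : Finset V) (g : ℝ) : open Classical in
    g * (#(A.filter (fun v => g < nn G v B)) : ℝ) ≤ nE G A B := by
  classical
  rw [nE_eq]
  have h1 : ∑ v ∈ A.filter (fun v => g < nn G v B), g ≤ ∑ v ∈ A, ∑ b ∈ B, fE G v b := by
    refine le_trans (sum_le_sum (g := fun v => ∑ b ∈ B, fE G v b) ?_)
      (sum_le_sum_of_subset_of_nonneg (filter_subset _ _)
        (fun v _ _ => sum_nonneg fun b _ => fE_nonneg G v b))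
    intro v hv
    refine (mem_filter.1 hv).2.le.trans (le_of_eq ?_)
    unfold nn fE
    rw [card_filter]
    push_cast
    refine sum_congr rfl fun b _ => ?_
    by_cases h : G.Adj v b <;> simp [h]
  rw [sum_const, nsmul_eq_mul] at h1
  linarith

end fam

lemma sum_th {X : Type} [Fintype X] [DecidableEq X] {a : X → ℕ} (h : 0 < tot a) :
    ∑ x, th a x = 1 := by
  unfold th
  rw [← sum_div]
  have : (∑ x, (a x : ℝ)) = (tot a : ℝ) := by unfold tot; push_cast; rfl
  rw [this, div_self]
  exact_mod_cast h.ne'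

theorem stST : StST := by
  intro X _ _ K L lev a h δ hδ
  classical
  have htot : 0 < tot a := by
    obtain ⟨x, _⟩ := h.notL
    exact lt_of_lt_of_le (h.apos x) (single_le_sum (fun _ _ => Nat.zero_le _) (mem_univ x))
  have hX : 0 < card X := by
    obtain ⟨x, _⟩ := h.notL
    exact card_pos_iff.2 ⟨x⟩
  have hsum := sum_th htot
  have htR : 1 ≤ (tot a : ℝ) := by exact_mod_cast htot
  obtain ⟨t, ht⟩ : ∃ t : ℝ, t = 1 / (tot a : ℝ) := ⟨_, rfl⟩
  have ht0 : 0 < t := by rw [ht]; positivity
  have ht1 : t ≤ 1 := by rw [ht]; exact (div_le_one (by linarith)).2 htR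
  have hth : ∀ x, t ≤ th a x := by
    intro x
    unfold th
    rw [ht]
    apply div_le_div_of_nonneg_right _ (by linarith)
    exact_mod_cast h.apos x
  obtain ⟨N, hN⟩ : ∃ N : ℝ, N = (card X : ℝ) := ⟨_, rfl⟩
  have hN1 : 1 ≤ N := by rw [hN]; exact_mod_cast hX
  obtain ⟨γ, hγ⟩ : ∃ γ : ℝ, γ = t / (8 * N) := ⟨_, rfl⟩
  have hγ0 : 0 < γ := by rw [hγ]; positivity
  have hNγ : N * γ = t / 8 := by rw [hγ]; field_simp
  have hγt : γ ≤ t / 8 := by nlinarith
  obtain ⟨ε, hε⟩ : ∃ ε : ℝ, ε = min (γ ^ 2 / 8) (δ * γ / (2 * N ^ 2)) := ⟨_, rfl⟩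
  have hε0 : 0 < ε := by rw [hε]; exact lt_min (by positivity) (by positivity)
  have hε1 : ε ≤ γ ^ 2 / 8 := by rw [hε]; exact min_le_left _ _
  have hε2 : ε ≤ δ * γ / (2 * N ^ 2) := by rw [hε]; exact min_le_right _ _
  have hεγ : ε ≤ γ / 8 := by nlinarith
  have hε6 : 6 * ε < γ ^ 2 := by nlinarith [pow_pos hγ0 2]
  have hNε : N * ε ≤ t / 64 := by nlinarith
  refine ⟨ε, hε0, ?_⟩
  intro V _ _ G hG hall
  have hn : 0 < (card V : ℝ) := by exact_mod_cast Fintype.card_pos
  choose S xv hF hxv using hall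
  obtain ⟨v0⟩ := (inferInstance : Nonempty V)
  obtain ⟨W, hWS⟩ : ∃ W, W = S v0 := ⟨_, rfl⟩
  have hW : Fam K (th a) ε G W := by rw [hWS]; exact hF v0
  have hθ : ∀ x, γ ≤ th a x - ε := by intro x; nlinarith [hth x]
  have hrow : ∀ x, (card X : ℝ) * γ + (card X : ℝ) * ε < th a x - ε := by
    intro x
    rw [← hN]
    nlinarith [hth x]
  have row1 : ∀ v x, ∃ y, PP γ (S v) W x y := fun v x => PP_row (hF v) hW hsum hn x (hrow x)
  have row2 : ∀ v y, ∃ x, PP γ W (S v) y x := fun v y => PP_row hW (hF v) hsum hn y (hrow y)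
  have col1 : ∀ v y, ∃ x, PP γ (S v) W x y := fun v y => by
    obtain ⟨x, hx⟩ := row2 v y
    exact ⟨x, PP_symm hx⟩
  have col2 : ∀ v x, ∃ y, PP γ W (S v) y x := fun v x => by
    obtain ⟨y, hy⟩ := row1 v x
    exact ⟨y, PP_symm hy⟩
  have A1 : ∀ v x y x' y', PP γ (S v) W x y → PP γ (S v) W x' y' → K.Adj x x' → K.Adj y y' :=
    fun v => ccA h (PP γ (S v) W) (row1 v) (col1 v) (PP_A h (hF v) hW hG hn hγ0 hε6 hθ)
  have A2 : ∀ v x y x' y', PP γ (S v) W x y → PP γ (S v) W x' y' → K.Adj y y' → K.Adj x x' :=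
    fun v x y x' y' h1 h2 hy => ccA h (PP γ W (S v)) (row2 v) (col2 v)
      (PP_A h hW (hF v) hG hn hγ0 hε6 hθ) y x y' x' (PP_symm h1) (PP_symm h2) hy
  have U2 : ∀ v x x2 y, PP γ (S v) W x y → PP γ (S v) W x2 y → x = x2 :=
    fun v x x2 y h1 h2 => ccU h (PP γ W (S v)) (col2 v)
      (fun y x y' x' k1 k2 hx => A1 v _ _ _ _ (PP_symm k1) (PP_symm k2) hx)
      (PP_symm h1) (PP_symm h2)
  choose τ hτ using fun v => row1 v (xv v)
  -- few non-neighbours in the adjacent classes
  have nb : ∀ v b, K.Adj (τ v) b → nn G v (W b) ≤ 2 * (N * γ) * card V := by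
    intro v b hvb
    obtain ⟨c, hc⟩ := col1 v b
    have hadj : K.Adj (xv v) c := A2 v _ _ _ _ (hτ v) hc hvb
    have h1 := cover (hF v) hsum ((W b).filter (fun u => ¬ G.Adj v u))
    have h2 : ∑ x, (#((W b).filter (fun u => ¬ G.Adj v u) ∩ S v x) : ℝ) ≤
        ∑ x : X, γ * (card V : ℝ) := by
      refine sum_le_sum fun x _ => ?_
      by_cases hx : x = c
      · subst hx
        have : (W b).filter (fun u => ¬ G.Adj v u) ∩ S v x = ∅ := by
          rw [eq_empty_iff_forall_notMem]
          intro u hu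
          rw [mem_inter, mem_filter] at hu
          exact hu.1.2 (hxv v x hadj u hu.2)
        rw [this]
        simp only [Finset.card_empty, Nat.cast_zero]
        positivity
      · by_contra hcon
        push Not at hcon
        refine hx (U2 v x c b ?_ hc)
        unfold PP
        refine hcon.le.trans ?_
        exact_mod_cast card_le_card (fun u hu => by
          rw [mem_inter, mem_filter] at hu
          exact mem_inter.2 ⟨hu.2, hu.1.1⟩)
    rw [sum_const, nsmul_eq_mul, card_univ, ← hN] at h2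
    rw [← hN] at h1
    unfold nn
    have h3 : N * ε * card V ≤ N * γ * card V :=
      mul_le_mul_of_nonneg_right (by nlinarith) hn.le
    linarith
  have hWs : ∀ b, (t - ε) * card V ≤ (#(W b) : ℝ) := fun b =>
    (mul_le_mul_of_nonneg_right (by linarith [hth b]) hn.le).trans (hW.2.1 b)
  have hm : 0 < γ * card V := mul_pos hγ0 hn
  have he : 6 * (ε * (card V : ℝ) ^ 2) < (γ * card V) ^ 2 := by
    have : 0 < (card V : ℝ) ^ 2 := by positivity
    nlinarith
  -- typical vertices
  have typ : ∀ v x, (∀ b, K.Adj x b → nn G v (W b) ≤ γ * card V) → τ v = x := by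
    intro v x hx
    by_contra hne
    obtain ⟨b, c, d, hbc, hbd, hcd, hyb, hyc, hyd⟩ := h.uni x (τ v) (fun k => hne k.symm)
    have sz : ∀ b, K.Adj x b ∨ K.Adj (τ v) b → γ * card V ≤
        (#((W b).filter (fun u => G.Adj v u)) : ℝ) := by
      intro b hb
      rw [nn_nb]
      have h1 := hWs b
      rcases hb with hb | hb
      · have h2 := hx b hb
        have : γ * card V + γ * card V ≤ (t - ε) * card V := by
          rw [← add_mul]
          exact mul_le_mul_of_nonneg_right (by linarith) hn.le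
        linarith
      · have h2 := nb v b hb
        have : γ * card V + 2 * (N * γ) * card V ≤ (t - ε) * card V := by
          rw [← add_mul]
          exact mul_le_mul_of_nonneg_right (by linarith) hn.le
        linarith
    obtain ⟨p, hp, q, hq, r, hr, k1, k2, k3⟩ := trip G hm he (sz b (Or.inl hyb))
      (sz c (Or.inr hyc)) (sz d hyd)
      ((nE_mono G (filter_subset _ _) (filter_subset _ _)).trans (hW.2.2 b c hbc))
      ((nE_mono G (filter_subset _ _) (filter_subset _ _)).trans (hW.2.2 b d hbd))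
      ((nE_mono G (filter_subset _ _) (filter_subset _ _)).trans (hW.2.2 c d hcd))
    exact noK4 hG (mem_filter.1 hp).2 (mem_filter.1 hq).2 (mem_filter.1 hr).2 k1 k2 k3
  refine ⟨τ, ?_, ?_⟩
  · intro u v huv
    by_contra hcon
    push Not at hcon
    obtain ⟨b, c, hbc, hbu, hbv, hcu, hcv⟩ := h.mid (τ u) (τ v) hcon.1 (fun k1 k2 => by
      by_contra hne
      exact hcon.2 hne k1 k2)
    have sz : ∀ b, K.Adj b (τ u) → K.Adj b (τ v) → γ * card V ≤
        (#((W b).filter (fun w => G.Adj u w ∧ G.Adj v w)) : ℝ) := by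
      intro b hb hb'
      refine le_trans ?_ (nn_nb2 G u v (W b))
      have h1 := hWs b
      have h2 := nb u b hb.symm
      have h3 := nb v b hb'.symm
      have : γ * card V + 2 * (N * γ) * card V + 2 * (N * γ) * card V ≤ (t - ε) * card V := by
        rw [← add_mul, ← add_mul]
        exact mul_le_mul_of_nonneg_right (by linarith) hn.le
      linarith
    obtain ⟨p, hp, q, hq, k1⟩ := pair G hm he (sz b hbu hbv) (sz c hcu hcv)
      ((nE_mono G (filter_subset _ _) (filter_subset _ _)).trans (hW.2.2 b c hbc))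
    have hp' := (mem_filter.1 hp).2
    have hq' := (mem_filter.1 hq).2
    exact noK4 hG huv hp'.1 hq'.1 hp'.2 hq'.2 k1
  · -- sizes
    have low : ∀ x, (th a x - (ε + N * (ε / γ))) * card V ≤
        (#(univ.filter (fun v => τ v = x)) : ℝ) := by
      intro x
      have h1 : W x ⊆ univ.filter (fun v => τ v = x) ∪
          (univ.filter (fun b => K.Adj x b)).biUnion (fun b =>
            (W x).filter (fun v => γ * card V < nn G v (W b))) := by
        intro v hv
        by_cases hvx : τ v = x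
        · exact mem_union_left _ (mem_filter.2 ⟨mem_univ _, hvx⟩)
        · refine mem_union_right _ ?_
          rw [mem_biUnion]
          by_contra hcon
          push Not at hcon
          refine hvx (typ v x fun b hb => ?_)
          have := hcon b (mem_filter.2 ⟨mem_univ _, hb⟩)
          rw [mem_filter, not_and] at this
          exact not_lt.1 (this hv)
      have h2 : (#(W x) : ℝ) ≤ (#(univ.filter (fun v => τ v = x)) : ℝ) +
          ∑ b ∈ univ.filter (fun b => K.Adj x b),
            (#((W x).filter (fun v => γ * card V < nn G v (W b))) : ℝ) := by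
        have := (card_le_card h1).trans ((card_union_le _ _).trans
          (Nat.add_le_add_left card_biUnion_le _))
        exact_mod_cast this
      have h3 : ∑ b ∈ univ.filter (fun b => K.Adj x b),
            (#((W x).filter (fun v => γ * card V < nn G v (W b))) : ℝ) ≤
          N * (ε / γ) * card V := by
        have h4 : ∀ b ∈ univ.filter (fun b => K.Adj x b),
            (#((W x).filter (fun v => γ * card V < nn G v (W b))) : ℝ) ≤ ε / γ * card V := by
          intro b hb
          have h5 := (atyp G (W x) (W b) (γ * card V)).trans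
            (hW.2.2 x b (mem_filter.1 hb).2)
          have h6 : ε / γ * card V = ε * (card V : ℝ) ^ 2 / (γ * card V) := by
            field_simp
          rw [h6, le_div_iff₀ hm]
          linarith
        refine (sum_le_sum h4).trans ?_
        rw [sum_const, nsmul_eq_mul, mul_assoc N]
        refine mul_le_mul_of_nonneg_right ?_ (by positivity)
        rw [hN]
        exact_mod_cast card_le_univ _
      have h7 := hW.2.1 x
      have h8 : (th a x - (ε + N * (ε / γ))) * card V =
        (th a x - ε) * card V - N * (ε / γ) * card V := by ring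
      rw [h8]
      linarith
    have hη : N * (ε + N * (ε / γ)) ≤ δ := by
      have h1 : ε ≤ N * (ε / γ) := by
        rw [← mul_div_assoc, le_div_iff₀ hγ0]
        nlinarith
      have h2 : N * (N * (ε / γ)) ≤ δ / 2 := by
        have : N * (N * (ε / γ)) = N ^ 2 * ε / γ := by ring
        rw [this, div_le_iff₀ hγ0]
        rw [le_div_iff₀ (by positivity)] at hε2
        nlinarith
      nlinarith
    intro x
    rw [abs_le]
    have hη0 : 0 ≤ ε + N * (ε / γ) := by positivity
    have hη1 : ε + N * (ε / γ) ≤ δ := by nlinarith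
    constructor
    · have h1 := low x
      have h2 := mul_le_mul_of_nonneg_right hη1 hn.le
      have h3 : (th a x - (ε + N * (ε / γ))) * (card V : ℝ) =
        th a x * card V - (ε + N * (ε / γ)) * card V := by ring
      rw [h3] at h1
      linarith
    · have h1 : (∑ y, (#(univ.filter (fun v => τ v = y)) : ℝ)) = card V := by
        have := card_eq_sum_card_fiberwise (s := (univ : Finset V)) (t := (univ : Finset X))
          (f := τ) (fun _ _ => by simp)
        rw [card_univ] at this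
        exact_mod_cast this.symm
      rw [← add_sum_erase _ _ (mem_univ x)] at h1
      have h2 : ∑ y ∈ univ.erase x, (th a y - (ε + N * (ε / γ))) * (card V : ℝ) ≤
          ∑ y ∈ univ.erase x, (#(univ.filter (fun v => τ v = y)) : ℝ) :=
        sum_le_sum fun y _ => low y
      have h3 : ∑ y ∈ univ.erase x, (th a y - (ε + N * (ε / γ))) * (card V : ℝ) =
          (1 - th a x - (N - 1) * (ε + N * (ε / γ))) * card V := by
        rw [← sum_mul, sum_sub_distrib, sum_const, nsmul_eq_mul, card_erase_of_mem (mem_univ x),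
          card_univ, Nat.cast_sub hX, ← hN]
        have := hsum
        rw [← add_sum_erase _ _ (mem_univ x)] at this
        push_cast
        congr 1
        linarith
      rw [h3] at h2
      have h4 : (N - 1) * (ε + N * (ε / γ)) ≤ δ := by nlinarith
      have h5 := mul_le_mul_of_nonneg_right h4 hn.le
      have h6 : (1 - th a x - (N - 1) * (ε + N * (ε / γ))) * (card V : ℝ) =
        card V - th a x * card V - (N - 1) * (ε + N * (ε / γ)) * card V := by ring
      rw [h6] at h2
      linarith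

end Pool.Agent.H52.Dis
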